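import Pool.Agent.Helper47.CP.Main
import Pool.Agent.Helper47.ForceCH

set_option autoImplicit false

namespace Pool.Agent.Results.MP_181197_gt.Consistency

open Pool.Agent.Helper47.ForceCH (OmegaOnePreserved CHHolds)

/-- (1) Some notion of forcing forces the continuum hypothesis over any ground model, without
collapsing `ω₁`. (2) The continuum hypothesis implies that there is a Tychonoff space `X` such that
`C_p(X)` is perfectly normal while its square is not. -/
theorem result :
    (∃ (P : Type) (_ : Preorder P), Nonempty P ∧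
      ∀ p : P, p ∈ OmegaOnePreserved P ∧ p ∈ CHHolds P) ∧
    (Cardinal.aleph 1 = Cardinal.continuum.{0} →
    ∃ (X : Type) (_ : TopologicalSpace X) (_ : T35Space X),
      (NormalSpace {f : X → ℝ // Continuous f} ∧
        ∀ s : Set {f : X → ℝ // Continuous f}, IsClosed s → IsGδ s) ∧
      ¬ (NormalSpace ({f : X → ℝ // Continuous f} × {f : X → ℝ // Continuous f}) ∧
        ∀ s : Set ({f : X → ℝ // Continuous f} × {f : X → ℝ // Continuous f}),
          IsClosed s → IsGδ s)) := by
  refine ⟨?_, Pool.Agent.Helper47.CP.main⟩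
  obtain ⟨P, h1, h2, h3⟩ := Pool.Agent.Helper47.ForceCH.exists_forcing
  exact ⟨P, h1, h2, fun p => ⟨(h3 p).1, (h3 p).2.2⟩⟩

end Pool.Agent.Results.MP_181197_gt.Consistency
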