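import Mathlib
import Pool.Agent.Helper937.Szd4

set_option autoImplicit false

open Set Topology

namespace Pool.Agent.Results.MP_181197_gt.ZeroDim

/-- If `X` is strongly zero-dimensional and `C_p(X)` is perfectly normal, then so is
`C_p(X) × C_p(X)`. -/
theorem result :
    ∀ (X : Type) [TopologicalSpace X] [T35Space X],
      (∀ f : X → ℝ, Continuous f → ∀ a b : ℝ, a < b →
          ∃ C : Set X, IsClopen C ∧ {x | f x ≤ a} ⊆ C ∧ C ⊆ {x | f x < b}) →
      (NormalSpace {f : X → ℝ // Continuous f} ∧
        ∀ s : Set {f : X → ℝ // Continuous f}, IsClosed s → IsGδ s) →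
      (NormalSpace ({f : X → ℝ // Continuous f} × {f : X → ℝ // Continuous f}) ∧
        ∀ s : Set ({f : X → ℝ // Continuous f} × {f : X → ℝ // Continuous f}),
          IsClosed s → IsGδ s) := by
  intro X _ _ hX h
  exact Helper937.Szd.perfect_of_zero fun P hP => Helper937.Szd.square_zero X hX h.1 h.2 P hP

end Pool.Agent.Results.MP_181197_gt.ZeroDim
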